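import Pool.Agent.H83.UE.Targets

/-!
# uda_modules, row ARE: the area formula for a rational function (helper36)
-/

set_option autoImplicit false

open Polynomial MeasureTheory Filter Topology Set
open scoped ENNReal NNReal

namespace Pool.Agent.H36.UDA

open Pool.Agent.H83.UE

/-- the real Jacobian determinant of a holomorphic function -/
lemma ar_det {Y : ℂ → ℂ} {z : ℂ} (h : DifferentiableAt ℂ Y z) :
    (fderiv ℝ Y z).det = ‖deriv Y z‖ ^ 2 := by
  rw [h.fderiv_restrictScalars ℝ]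
  have h1 : ((fderiv ℂ Y z).restrictScalars ℝ).det
      = LinearMap.det ((fderiv ℂ Y z : ℂ →ₗ[ℂ] ℂ).restrictScalars ℝ) := rfl
  have h2 : LinearMap.det (fderiv ℂ Y z : ℂ →ₗ[ℂ] ℂ) = deriv Y z := by
    rw [LinearMap.det_ring]
    exact fderiv_apply_one_eq_deriv
  rw [h1, LinearMap.det_restrictScalars, h2, Algebra.norm_complex_apply,
    Complex.normSq_eq_norm_sq]

/-- local injectivity -/
lemma ar_inj {O : Set ℂ} {Y : ℂ → ℂ} (hO : IsOpen O)
    (hY : DifferentiableOn ℂ Y O) {z : ℂ} (hz : z ∈ O) (hd : deriv Y z ≠ 0) :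
    ∃ B : Set ℂ, IsOpen B ∧ z ∈ B ∧ InjOn Y B := by
  have hc : ContDiffAt ℂ 1 Y z := (hY.contDiffOn hO).contDiffAt (hO.mem_nhds hz)
  have hs : HasStrictDerivAt Y (deriv Y z) z := hc.hasStrictDerivAt (by simp)
  have hs' := hs.hasStrictFDerivAt_equiv hd
  refine ⟨(hs'.toOpenPartialHomeomorph Y).source, (hs'.toOpenPartialHomeomorph Y).open_source,
    hs'.mem_toOpenPartialHomeomorph_source, ?_⟩
  have := (hs'.toOpenPartialHomeomorph Y).injOn
  rwa [hs'.toOpenPartialHomeomorph_coe] at this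

/-- a countable measurable partition into pieces of injectivity -/
lemma ar_pieces {O : Set ℂ} {Y : ℂ → ℂ} (hO : IsOpen O)
    (hY : DifferentiableOn ℂ Y O) (hd : ∀ z ∈ O, deriv Y z ≠ 0) :
    ∃ P : ℕ → Set ℂ, (∀ i, MeasurableSet (P i)) ∧ (∀ i, InjOn Y (P i)) ∧
      Pairwise (Function.onFun Disjoint P) ∧ (⋃ i, P i) = O := by
  classical
  have hex : ∀ z : ℂ, ∃ B : Set ℂ, IsOpen B ∧ InjOn Y B ∧ (z ∈ O → z ∈ B) := by
    intro z
    by_cases h : z ∈ O
    · obtain ⟨B, h1, h2, h3⟩ := ar_inj hO hY h (hd z h)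
      exact ⟨B, h1, h3, fun _ => h2⟩
    · exact ⟨∅, isOpen_empty, injOn_empty _, fun h1 => absurd h1 h⟩
  choose B hB1 hB2 hB3 using hex
  obtain ⟨u, hu⟩ : ∃ u : ℕ → Set ℂ, (∀ i, IsOpen (u i)) ∧ (∀ i, InjOn Y (u i)) ∧
      O ⊆ ⋃ i, u i := by
    obtain ⟨t, ht, htc, htcov⟩ := TopologicalSpace.countable_cover_nhdsWithin
      (s := O) (f := B)
      (fun x hx => mem_nhdsWithin_of_mem_nhds ((hB1 x).mem_nhds (hB3 x hx)))
    by_cases hte : t.Nonempty
    · obtain ⟨u, hu⟩ := htc.exists_eq_range hte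
      refine ⟨fun i => B (u i), fun i => hB1 _, fun i => hB2 _, ?_⟩
      refine htcov.trans ?_
      rw [hu]
      simp
    · rw [not_nonempty_iff_eq_empty] at hte
      subst hte
      refine ⟨fun _ => ∅, fun _ => isOpen_empty, fun _ => injOn_empty _, ?_⟩
      simpa using htcov
  obtain ⟨hu1, hu2, hu3⟩ := hu
  refine ⟨fun i => O ∩ disjointed u i, ?_, ?_, ?_, ?_⟩
  · intro i
    exact hO.measurableSet.inter (MeasurableSet.disjointed (fun j => (hu1 j).measurableSet) i)
  · intro i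
    exact (hu2 i).mono (inter_subset_right.trans (disjointed_subset u i))
  · intro i j hij
    exact (disjoint_disjointed u hij).mono inter_subset_right inter_subset_right
  · rw [← inter_iUnion, iUnion_disjointed]
    exact inter_eq_left.2 hu3

/-- the fibre sum over a piece of injectivity -/
lemma ar_piece {P : Set ℂ} {Y : ℂ → ℂ} (hinj : InjOn Y P) (g : ℂ → ℝ≥0∞) (y : ℂ) :
    ∑' z, (P ∩ Y ⁻¹' {y}).indicator g z
      = Function.extend (P.domRestrict Y) (P.domRestrict g) 0 y := by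
  classical
  by_cases h : ∃ z ∈ P, Y z = y
  · obtain ⟨z, hz, rfl⟩ := h
    have h1 : Function.extend (P.domRestrict Y) (P.domRestrict g) 0 (Y z) = g z := by
      have := (injOn_iff_injective.1 hinj).extend_apply (P.domRestrict g) 0 ⟨z, hz⟩
      simpa using this
    rw [h1, tsum_eq_single z]
    · rw [indicator_of_mem]
      exact ⟨hz, rfl⟩
    · intro z' hz'
      rw [indicator_of_notMem]
      rintro ⟨h2, h3⟩
      exact hz' (hinj h2 hz h3)
  · rw [Function.extend_apply']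
    · simp only [Pi.zero_apply]
      rw [ENNReal.tsum_eq_zero]
      intro z
      rw [indicator_of_notMem]
      rintro ⟨h2, h3⟩
      exact h ⟨z, h2, h3⟩
    · rintro ⟨⟨z, hz⟩, h2⟩
      exact h ⟨z, hz, h2⟩

/-- the area formula on an open set of regular points -/
theorem ar_area {O : Set ℂ} {Y : ℂ → ℂ} (hO : IsOpen O) (hY : DifferentiableOn ℂ Y O)
    (hd : ∀ z ∈ O, deriv Y z ≠ 0) (g : ℂ → ℝ≥0∞) (hg : Measurable g) :
    ∫⁻ y, ∑' z, (O ∩ Y ⁻¹' {y}).indicator g z = ∫⁻ z in O, g z * ‖deriv Y z‖ₑ ^ 2 := by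
  obtain ⟨P, hP1, hP2, hP3, hP4⟩ := ar_pieces hO hY hd
  have hPO : ∀ i, P i ⊆ O := fun i z hz => hP4 ▸ mem_iUnion_of_mem i hz
  have hder : ∀ i, ∀ x ∈ P i, HasFDerivWithinAt Y (fderiv ℝ Y x) (P i) x := by
    intro i x hx
    have h1 : DifferentiableAt ℂ Y x := (hY x (hPO i hx)).differentiableAt (hO.mem_nhds (hPO i hx))
    exact (h1.restrictScalars ℝ).hasFDerivAt.hasFDerivWithinAt
  have hemb : ∀ i, MeasurableEmbedding ((P i).domRestrict Y) := fun i =>
    measurableEmbedding_of_fderivWithin (hP1 i) (hder i) (hP2 i)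
  obtain ⟨h, hh⟩ : ∃ h : ℕ → ℂ → ℝ≥0∞, h = fun i =>
    Function.extend ((P i).domRestrict Y) ((P i).domRestrict g) 0 := ⟨_, rfl⟩
  have hhm : ∀ i, Measurable (h i) := by
    intro i
    rw [hh]
    exact (hemb i).measurable_extend (hg.comp measurable_subtype_coe) measurable_zero
  -- the fibre sum
  have hsum : ∀ y, ∑' z, (O ∩ Y ⁻¹' {y}).indicator g z = ∑' i, h i y := by
    intro y
    have h1 : ∀ z, (O ∩ Y ⁻¹' {y}).indicator g z
        = ∑' i, (P i ∩ Y ⁻¹' {y}).indicator g z := by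
      intro z
      by_cases hz : z ∈ O ∩ Y ⁻¹' {y}
      · rw [indicator_of_mem hz]
        have hz' : z ∈ ⋃ i, P i := by
          rw [hP4]
          exact hz.1
        obtain ⟨i, hi⟩ := mem_iUnion.1 hz'
        rw [tsum_eq_single i]
        · rw [indicator_of_mem]
          exact ⟨hi, hz.2⟩
        · intro j hj
          rw [indicator_of_notMem]
          rintro ⟨hj', _⟩
          exact (Set.disjoint_left.1 (hP3 hj)) hj' hi
      · rw [indicator_of_notMem hz, eq_comm, ENNReal.tsum_eq_zero]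
        intro i
        rw [indicator_of_notMem]
        rintro ⟨h2, h3⟩
        exact hz ⟨hPO i h2, h3⟩
    simp_rw [h1]
    rw [ENNReal.tsum_comm]
    refine tsum_congr fun i => ?_
    rw [hh]
    exact ar_piece (hP2 i) g y
  have hint : ∀ i, ∫⁻ y, h i y = ∫⁻ z in P i, g z * ‖deriv Y z‖ₑ ^ 2 := by
    intro i
    have h1 : ∫⁻ y, h i y = ∫⁻ y in Y '' P i, h i y := by
      rw [← lintegral_indicator (hP1 i |> fun hm =>
        measurable_image_of_fderivWithin hm (hder i) (hP2 i))]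
      refine lintegral_congr fun y => ?_
      by_cases hy : y ∈ Y '' P i
      · rw [indicator_of_mem hy]
      · rw [indicator_of_notMem hy, hh]
        simp only
        rw [Function.extend_apply']
        · rfl
        · rintro ⟨⟨z, hz⟩, h2⟩
          exact hy ⟨z, hz, h2⟩
    rw [h1, lintegral_image_eq_lintegral_abs_det_fderiv_mul volume (hP1 i) (hder i) (hP2 i)]
    refine setLIntegral_congr_fun (hP1 i) fun z hz => ?_
    have h2 : DifferentiableAt ℂ Y z := (hY z (hPO i hz)).differentiableAt (hO.mem_nhds (hPO i hz))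
    have h3 : h i (Y z) = g z := by
      have := (injOn_iff_injective.1 (hP2 i)).extend_apply ((P i).domRestrict g) 0 ⟨z, hz⟩
      rw [hh]
      simpa using this
    have h4 : ENNReal.ofReal (‖deriv Y z‖ ^ 2) = ‖deriv Y z‖ₑ ^ 2 := by
      rw [ENNReal.ofReal_pow (norm_nonneg _), ofReal_norm]
    rw [h3, ar_det h2, abs_of_nonneg (by positivity), mul_comm, h4]
  simp_rw [hsum]
  rw [lintegral_tsum fun i => (hhm i).aemeasurable]
  simp_rw [hint]
  rw [← lintegral_iUnion hP1 hP3, hP4]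

/-- the Wronskian does not vanish -/
lemma ar_wr {P Q : ℂ[X]} (hc : IsCoprime P Q) (hd : 0 < P.natDegree ∨ 0 < Q.natDegree) :
    derivative P * Q - P * derivative Q ≠ 0 := by
  intro h
  have h1 : derivative P * Q = P * derivative Q := sub_eq_zero.1 h
  -- `Q` divides `Q'` and `P` divides `P'`
  have h2 : Q ∣ derivative Q := by
    have : Q ∣ P * derivative Q := ⟨derivative P, by rw [← h1, mul_comm]⟩
    exact hc.symm.dvd_of_dvd_mul_left this
  have h3 : P ∣ derivative P := by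
    have : P ∣ derivative P * Q := ⟨derivative Q, h1⟩
    exact hc.dvd_of_dvd_mul_right this
  have h4 : ∀ A : ℂ[X], A ∣ derivative A → A.natDegree = 0 := by
    intro A hA
    by_contra h0
    have h5 : derivative A ≠ 0 := by
      intro h6
      exact h0 ((derivative_eq_zero.1 h6))
    have h6 := natDegree_le_of_dvd hA h5
    have h7 := natDegree_derivative_lt h0
    omega
  have h5 := h4 P h3
  have h6 := h4 Q h2
  omega

/-- the fibre polynomial does not vanish -/
lemma ar_ne {P Q : ℂ[X]} (hc : IsCoprime P Q) (hd : 0 < P.natDegree ∨ 0 < Q.natDegree) (z : ℂ) :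
    P - C z * Q ≠ 0 := by
  intro h
  have h1 : P = C z * Q := sub_eq_zero.1 h
  have h2 : IsUnit Q := by
    rw [h1] at hc
    have h3 : IsCoprime Q Q := (IsCoprime.mul_left_iff.1 hc).2
    exact isCoprime_self.1 h3
  have h3 : Q.natDegree = 0 := natDegree_eq_zero_of_isUnit h2
  have h4 : P.natDegree = 0 := by
    rw [h1]
    have := natDegree_C_mul_le z Q
    omega
  omega

/-- the fibres -/
lemma ar_mem {P Q : ℂ[X]} (hc : IsCoprime P Q) (hd : 0 < P.natDegree ∨ 0 < Q.natDegree)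
    (z x : ℂ) : x ∈ (P - C z * Q).roots ↔ Q.eval x ≠ 0 ∧ P.eval x / Q.eval x = z := by
  rw [mem_roots (ar_ne hc hd z), IsRoot.def, eval_sub, eval_mul, eval_C, sub_eq_zero]
  constructor
  · intro h
    have h1 : Q.eval x ≠ 0 := by
      intro h2
      obtain ⟨a, b, hab⟩ := hc
      have h3 := congrArg (eval x) hab
      rw [eval_add, eval_mul, eval_mul, h, h2, eval_one] at h3
      simp at h3
    refine ⟨h1, ?_⟩
    rw [h, mul_div_assoc, div_self h1, mul_one]
  · rintro ⟨h1, h2⟩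
    rw [← h2, div_mul_cancel₀ _ h1]

theorem ar_deriv (P Q : ℂ[X]) {x : ℂ} (h : Q.eval x ≠ 0) :
    HasDerivAt (fun y => P.eval y / Q.eval y)
      ((derivative P * Q - P * derivative Q).eval x / Q.eval x ^ 2) x := by
  have h1 := (P.hasDerivAt x).div (Q.hasDerivAt x) h
  rw [eval_sub, eval_mul, eval_mul]
  exact h1

theorem pf_ARE : T_ARE := by
  intro P Q hc hd H hH
  classical
  have hQ0 : Q ≠ 0 := by
    intro h
    have := ar_wr hc hd
    rw [h] at this
    simp at this
  have hW0 := ar_wr hc hd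
  obtain ⟨W, hW⟩ : ∃ W : ℂ[X], W = derivative P * Q - P * derivative Q := ⟨_, rfl⟩
  rw [← hW] at hW0
  obtain ⟨O, hO⟩ : ∃ O : Set ℂ, O = {x | Q.eval x ≠ 0 ∧ W.eval x ≠ 0} := ⟨_, rfl⟩
  have hOc : Oᶜ ⊆ ((Q.roots.toFinset ∪ W.roots.toFinset : Finset ℂ) : Set ℂ) := by
    intro x hx
    rw [hO] at hx
    simp only [mem_compl_iff, mem_ofPred_eq, not_and_or, not_not] at hx
    rw [Finset.mem_coe, Finset.mem_union, Multiset.mem_toFinset, Multiset.mem_toFinset,
      mem_roots hQ0, mem_roots hW0]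
    exact hx
  have hOf : Oᶜ.Finite := (Finset.finite_toSet _).subset hOc
  have hOo : IsOpen O := by
    rw [← isClosed_compl_iff]
    exact hOf.isClosed
  have hOm : ∀ x, x ∈ O ↔ Q.eval x ≠ 0 ∧ W.eval x ≠ 0 := fun x => by rw [hO]; rfl
  have hYd : DifferentiableOn ℂ (fun y => P.eval y / Q.eval y) O := fun x hx =>
    (ar_deriv P Q ((hOm x).1 hx).1).differentiableAt.differentiableWithinAt
  have hYn : ∀ x ∈ O, deriv (fun y => P.eval y / Q.eval y) x ≠ 0 := by
    intro x hx
    rw [(ar_deriv P Q ((hOm x).1 hx).1).deriv, ← hW]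
    exact div_ne_zero ((hOm x).1 hx).2 (pow_ne_zero _ ((hOm x).1 hx).1)
  have hae : ∀ᵐ x : ℂ, x ∈ O := by
    rw [ae_iff]
    exact hOf.measure_zero _
  have h1 := ar_area hOo hYd hYn H hH
  rw [Measure.restrict_eq_self_of_ae_mem hae] at h1
  rw [← h1]
  -- the exceptional values
  have hE : ((fun y => P.eval y / Q.eval y) '' Oᶜ).Finite := hOf.image _
  have hEz : ∀ᵐ z : ℂ, z ∉ (fun y => P.eval y / Q.eval y) '' Oᶜ := by
    rw [ae_iff]
    simp only [not_not]
    exact hE.measure_zero _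
  refine lintegral_congr_ae ?_
  filter_upwards [hEz] with z hz
  have h2 : O ∩ (fun y => P.eval y / Q.eval y) ⁻¹' {z} =
      ((P - C z * Q).roots.toFinset : Set ℂ) := by
    ext x
    rw [Finset.mem_coe, Multiset.mem_toFinset, ar_mem hc hd, mem_inter_iff, mem_preimage,
      mem_singleton_iff]
    constructor
    · rintro ⟨h3, h4⟩
      exact ⟨((hOm x).1 h3).1, h4⟩
    · rintro ⟨h3, h4⟩
      refine ⟨?_, h4⟩
      by_contra h5
      exact hz ⟨x, h5, h4⟩
  rw [h2, ← tsum_subtype, Finset.tsum_subtype']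

end Pool.Agent.H36.UDA
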