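import Pool.Agent.H83.UE.Targets
import Pool.Agent.H36.UDA.ARE

/-!
# uda_modules, row INT: the integral of the direct image (helper36)
-/

set_option autoImplicit false

open Polynomial MeasureTheory Filter Topology Set
open scoped ENNReal NNReal ComplexConjugate

namespace Pool.Agent.H36.UDA

open Pool.Agent.H83.UE

/-- the derivative of the rational function -/
noncomputable def iD (P Q : ℂ[X]) (x : ℂ) : ℂ := deriv (fun y => P.eval y / Q.eval y) x

/-- the fibre sum -/
noncomputable def iS (P Q : ℂ[X]) (H : ℂ → ℂ) (z : ℂ) : ℂ :=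
  ((P - C z * Q).roots.map fun x => H x / (iD P Q x * conj (iD P Q x))).sum

/-- the case of nonnegative functions -/
lemma in_pos (h2 : T_ARE) (h3 : T_MEA) {P Q : ℂ[X]} (hc : IsCoprime P Q)
    (hd : 0 < P.natDegree ∨ 0 < Q.natDegree) (E : Finset ℂ)
    (hE : ∀ z, z ∉ E → (P - C z * Q).roots.Nodup)
    (hD : ∀ᵐ x : ℂ, iD P Q x ≠ 0)
    (K : ℂ → ℝ) (hK : Measurable K) (hK0 : ∀ x, 0 ≤ K x) (hKi : Integrable K) :
    Integrable (iS P Q fun x => (K x : ℂ)) ∧
    ∫ z, iS P Q (fun x => (K x : ℂ)) z = ∫ x, (K x : ℂ) := by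
  classical
  have hDm : Measurable (iD P Q) := measurable_deriv _
  obtain ⟨k, hk⟩ : ∃ k : ℂ → ℝ, k = fun x => K x / ‖iD P Q x‖ ^ 2 := ⟨_, rfl⟩
  have hk0 : ∀ x, 0 ≤ k x := fun x => by
    rw [hk]
    exact div_nonneg (hK0 x) (by positivity)
  have hkm : Measurable k := by
    rw [hk]
    exact hK.div (hDm.norm.pow_const 2)
  obtain ⟨f, hf⟩ : ∃ f : ℂ → ℝ≥0∞, f = fun z =>
    ((P - C z * Q).roots.map fun x => ENNReal.ofReal (k x)).sum := ⟨_, rfl⟩
  have hfm : Measurable f := by
    rw [hf]
    exact (h3 P Q hc hd).1 _ hkm.ennreal_ofReal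
  have hEae : ∀ᵐ z : ℂ, z ∉ E := by
    rw [ae_iff]
    have : {a | ¬ a ∉ E} = (E : Set ℂ) := by
      ext a
      simp
    rw [this]
    exact E.finite_toSet.measure_zero _
  have hfE : ∫⁻ z, f z = ∫⁻ x, ENNReal.ofReal (K x) := by
    have e1 : ∫⁻ z, f z = ∫⁻ z, ∑ x ∈ (P - C z * Q).roots.toFinset, ENNReal.ofReal (k x) := by
      refine lintegral_congr_ae ?_
      filter_upwards [hEae] with z hz
      rw [hf, Finset.sum_eq_multiset_sum, Multiset.toFinset_val, (hE z hz).dedup]
    rw [e1, h2 P Q hc hd _ hkm.ennreal_ofReal]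
    refine lintegral_congr_ae ?_
    filter_upwards [hD] with x hx
    have e2 : ‖deriv (fun y => P.eval y / Q.eval y) x‖ₑ ^ 2 =
        ENNReal.ofReal (‖iD P Q x‖ ^ 2) := by
      rw [ENNReal.ofReal_pow (norm_nonneg _), ofReal_norm]
      rfl
    rw [e2, ← ENNReal.ofReal_mul (hk0 x), hk]
    dsimp only
    rw [div_mul_cancel₀]
    have := norm_pos_iff.2 hx
    positivity
  have hfin : ∫⁻ z, f z ≠ ⊤ := by
    rw [hfE]
    have := hKi.lintegral_lt_top
    exact this.ne
  have hval : ∀ z, ((f z).toReal : ℂ) = iS P Q (fun x => (K x : ℂ)) z := by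
    intro z
    have e1 : (f z).toReal = ((P - C z * Q).roots.map k).sum := by
      rw [hf]
      dsimp only
      induction (P - C z * Q).roots using Multiset.induction_on with
      | empty => simp
      | cons a s ih =>
        rw [Multiset.map_cons, Multiset.sum_cons, Multiset.map_cons, Multiset.sum_cons,
          ENNReal.toReal_add ENNReal.ofReal_ne_top, ih, ENNReal.toReal_ofReal (hk0 a)]
        apply ne_of_lt
        refine Multiset.induction_on s (by simp) ?_
        intro b t hb
        rw [Multiset.map_cons, Multiset.sum_cons]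
        exact ENNReal.add_lt_top.2 ⟨ENNReal.ofReal_lt_top, hb⟩
    rw [e1, iS]
    induction (P - C z * Q).roots using Multiset.induction_on with
    | empty => simp
    | cons a s ih =>
      rw [Multiset.map_cons, Multiset.sum_cons, Multiset.map_cons, Multiset.sum_cons,
        Complex.ofReal_add, ih, hk]
      congr 1
      rw [Complex.mul_conj, Complex.normSq_eq_norm_sq]
      push_cast
      rfl
  have hre : Integrable (fun z => (f z).toReal) :=
    integrable_toReal_of_lintegral_ne_top hfm.aemeasurable hfin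
  have e3 : (iS P Q fun x => (K x : ℂ)) = fun z => (((f z).toReal : ℝ) : ℂ) :=
    funext fun z => (hval z).symm
  rw [e3]
  refine ⟨hre.ofReal, ?_⟩
  rw [integral_complex_ofReal, integral_complex_ofReal]
  congr 1
  rw [integral_toReal hfm.aemeasurable (ae_lt_top hfm hfin), hfE,
    integral_eq_lintegral_of_nonneg_ae (Eventually.of_forall hK0) hK.aestronglyMeasurable]

lemma iS_add (P Q : ℂ[X]) (F G : ℂ → ℂ) (z : ℂ) :
    iS P Q (fun x => F x + G x) z = iS P Q F z + iS P Q G z := by
  rw [iS, iS, iS, ← Multiset.sum_map_add]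
  congr 1
  refine Multiset.map_congr rfl fun x _ => ?_
  rw [add_div]

lemma iS_mul (P Q : ℂ[X]) (c : ℂ) (F : ℂ → ℂ) (z : ℂ) :
    iS P Q (fun x => c * F x) z = c * iS P Q F z := by
  rw [iS, iS, ← Multiset.sum_map_mul_left]
  congr 1
  refine Multiset.map_congr rfl fun x _ => ?_
  rw [mul_div_assoc]

/-- the class of functions for which the formula holds -/
def IG (P Q : ℂ[X]) (F : ℂ → ℂ) : Prop :=
  Integrable F ∧ Integrable (iS P Q F) ∧ ∫ z, iS P Q F z = ∫ x, F x

lemma IG.add {P Q : ℂ[X]} {F G : ℂ → ℂ} (hF : IG P Q F) (hG : IG P Q G) :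
    IG P Q fun x => F x + G x := by
  have h1 : iS P Q (fun x => F x + G x) = fun z => iS P Q F z + iS P Q G z :=
    funext fun z => iS_add P Q F G z
  refine ⟨hF.1.add hG.1, ?_, ?_⟩
  · rw [h1]
    exact hF.2.1.add hG.2.1
  · rw [h1, integral_add hF.2.1 hG.2.1, integral_add hF.1 hG.1, hF.2.2, hG.2.2]

lemma IG.mul {P Q : ℂ[X]} {F : ℂ → ℂ} (hF : IG P Q F) (c : ℂ) :
    IG P Q fun x => c * F x := by
  have h1 : iS P Q (fun x => c * F x) = fun z => c * iS P Q F z :=
    funext fun z => iS_mul P Q c F z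
  refine ⟨hF.1.const_mul c, ?_, ?_⟩
  · rw [h1]
    exact hF.2.1.const_mul c
  · rw [h1, integral_const_mul, integral_const_mul, hF.2.2]

theorem pf_INT (h1 : T_SIM) (h2 : T_ARE) (h3 : T_MEA) : T_INT := by
  intro D P Q hD hc hP hQ hPQ H hH
  classical
  have hd : 0 < P.natDegree ∨ 0 < Q.natDegree := by
    rcases hPQ with h | h <;> omega
  obtain ⟨E, hE⟩ := h1 D P Q hD hc hP hQ hPQ
  have hN : ∀ z, z ∉ E → (P - C z * Q).roots.Nodup := fun z hz => (hE z hz).1
  have hEae : ∀ᵐ z : ℂ, z ∉ E := by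
    rw [ae_iff]
    have : {a | ¬ a ∉ E} = (E : Set ℂ) := by
      ext a
      simp
    rw [this]
    exact E.finite_toSet.measure_zero _
  -- the derivative does not vanish almost everywhere
  have hQ0 : Q ≠ 0 := by
    intro h
    have := ar_wr hc hd
    rw [h] at this
    simp at this
  have hW0 := ar_wr hc hd
  have hDn : ∀ᵐ x : ℂ, iD P Q x ≠ 0 := by
    have h4 : ∀ᵐ x : ℂ, x ∉ Q.roots.toFinset ∪ (derivative P * Q -
        P * derivative Q).roots.toFinset := by
      rw [ae_iff]
      have : {a | ¬ a ∉ Q.roots.toFinset ∪ (derivative P * Q -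
          P * derivative Q).roots.toFinset} = ((Q.roots.toFinset ∪ (derivative P * Q -
          P * derivative Q).roots.toFinset : Finset ℂ) : Set ℂ) := by
        ext a
        rw [Finset.mem_coe]
        exact not_not
      rw [this]
      exact (Finset.finite_toSet _).measure_zero _
    filter_upwards [h4] with x hx
    rw [Finset.mem_union, Multiset.mem_toFinset, Multiset.mem_toFinset, mem_roots hQ0,
      mem_roots hW0, not_or] at hx
    rw [iD, (ar_deriv P Q hx.1).deriv]
    exact div_ne_zero hx.2 (pow_ne_zero _ hx.1)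
  -- the measurable case
  have hmeas : ∀ F : ℂ → ℂ, Measurable F → Integrable F → IG P Q F := by
    intro F hFm hFi
    have g1 : ∀ K : ℂ → ℝ, Measurable K → Integrable K →
        IG P Q fun x => ((max (K x) 0 : ℝ) : ℂ) := by
      intro K hK hKi
      have e1 : Integrable fun x => max (K x) 0 := hKi.pos_part
      obtain ⟨e2, e3⟩ := in_pos h2 h3 hc hd E hN hDn (fun x => max (K x) 0)
        (hK.max measurable_const) (fun x => le_max_right _ _) e1
      exact ⟨e1.ofReal, e2, e3⟩
    have r1 := g1 (fun x => (F x).re) (Complex.measurable_re.comp hFm) hFi.re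
    have r2 := g1 (fun x => -(F x).re) (Complex.measurable_re.comp hFm).neg hFi.re.neg
    have r3 := g1 (fun x => (F x).im) (Complex.measurable_im.comp hFm) hFi.im
    have r4 := g1 (fun x => -(F x).im) (Complex.measurable_im.comp hFm).neg hFi.im.neg
    have r5 := (r1.add (r2.mul (-1))).add ((r3.add (r4.mul (-1))).mul Complex.I)
    have r6 : ∀ a : ℝ, ((max a 0 : ℝ) : ℂ) + (-1) * ((max (-a) 0 : ℝ) : ℂ) = (a : ℂ) := by
      intro a
      rcases le_total a 0 with ha | ha
      · rw [max_eq_right ha, max_eq_left (by linarith)]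
        push_cast
        ring
      · rw [max_eq_left ha, max_eq_right (by linarith)]
        push_cast
        ring
    have r7 : (fun x => (((max (F x).re 0 : ℝ) : ℂ) + (-1) * ((max (-(F x).re) 0 : ℝ) : ℂ)) +
        Complex.I * (((max (F x).im 0 : ℝ) : ℂ) + (-1) * ((max (-(F x).im) 0 : ℝ) : ℂ))) = F := by
      funext x
      rw [r6, r6, mul_comm]
      exact Complex.re_add_im (F x)
    rw [← r7]
    exact r5
  -- the measurable representative
  obtain ⟨F, hFm, hHF⟩ : ∃ F : ℂ → ℂ, Measurable F ∧ H =ᵐ[volume] F :=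
    ⟨hH.1.mk H, hH.1.stronglyMeasurable_mk.measurable, hH.1.ae_eq_mk⟩
  have hFi : Integrable F := hH.congr hHF
  obtain ⟨-, g2, g3⟩ := hmeas F hFm hFi
  have hnull : volume {x | ¬ H x = F x} = 0 := hHF
  obtain ⟨N, hNs, hNm, hN0⟩ := exists_measurable_superset_of_null hnull
  have hroots : ∀ᵐ z : ℂ, ∀ x ∈ (P - C z * Q).roots, x ∉ N := by
    have hi : Measurable (N.indicator (fun _ => (1 : ℝ≥0∞))) := measurable_const.indicator hNm
    have hm := (h3 P Q hc hd).1 _ hi
    have h4 : ∫⁻ z, ((P - C z * Q).roots.map (N.indicator fun _ => (1 : ℝ≥0∞))).sum = 0 := by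
      have e1 : ∫⁻ z, ((P - C z * Q).roots.map (N.indicator fun _ => (1 : ℝ≥0∞))).sum =
          ∫⁻ z, ∑ x ∈ (P - C z * Q).roots.toFinset, N.indicator (fun _ => (1 : ℝ≥0∞)) x := by
        refine lintegral_congr_ae ?_
        filter_upwards [hEae] with z hz
        rw [Finset.sum_eq_multiset_sum, Multiset.toFinset_val, (hN z hz).dedup]
      rw [e1, h2 P Q hc hd _ hi]
      have e2 : ∀ᵐ x : ℂ, N.indicator (fun _ => (1 : ℝ≥0∞)) x *
          ‖deriv (fun y => P.eval y / Q.eval y) x‖ₑ ^ 2 = 0 := by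
        have : ∀ᵐ x : ℂ, x ∉ N := by
          rw [ae_iff]
          have e3 : {a | ¬ a ∉ N} = N := by
            ext a
            exact not_not
          rw [e3]
          exact hN0
        filter_upwards [this] with x hx
        rw [indicator_of_notMem hx, zero_mul]
      rw [lintegral_congr_ae e2, lintegral_zero]
    rw [lintegral_eq_zero_iff hm] at h4
    filter_upwards [h4] with z hz x hx hxN
    have e4 : N.indicator (fun _ => (1 : ℝ≥0∞)) x ≤
        ((P - C z * Q).roots.map (N.indicator fun _ => (1 : ℝ≥0∞))).sum :=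
      Multiset.single_le_sum (fun _ _ => zero_le) _ (Multiset.mem_map_of_mem _ hx)
    rw [indicator_of_mem hxN] at e4
    have e5 : ((P - C z * Q).roots.map (N.indicator fun _ => (1 : ℝ≥0∞))).sum = 0 := hz
    rw [e5] at e4
    simp at e4
  have hS : iS P Q H =ᵐ[volume] iS P Q F := by
    filter_upwards [hroots] with z hz
    rw [iS, iS]
    congr 1
    refine Multiset.map_congr rfl fun x hx => ?_
    have : H x = F x := by
      by_contra h
      exact hz x hx (hNs h)
    rw [this]
  have g4 : Integrable (iS P Q H) := g2.congr hS.symm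
  have g5 : ∫ z, iS P Q H z = ∫ x, H x := by
    rw [integral_congr_ae hS, g3, integral_congr_ae hHF]
  exact ⟨g4, g5⟩

end Pool.Agent.H36.UDA
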